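import Pool.Agent.Helper12.TS.StB
import Pool.Agent.Helper51.AJ.Basic
import Pool.Agent.Helper86.NK.M_PTR
import Pool.Agent.Helper36.NK.M_KCA

/-!
# Project TS (MP_d63854_co), module AVL: availability
-/

set_option autoImplicit false

namespace Pool.Agent.Helper72.TS

open Pool.Agent.Helper12.TS
open Pool.Agent.Helper51.AJ (IsMinor Planar Apex ExMinor Con Tch con_union con_singleton tch_symm tch_mono)
open Pool.Agent.Helper12.NK (rst Kc add)

private theorem con_of {V : Type} {G H : SimpleGraph V} {T U : Set V} (hT : T ⊆ U) (h : rst G U ≤ H) (hc : Con G T) :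
    Con H T :=
  SimpleGraph.Connected.mono (fun a b hab => h ⟨hab, hT a.2, hT b.2⟩) hc

private theorem tch_of {V : Type} {G H : SimpleGraph V} {T T' U : Set V} (hT : T ⊆ U) (hT' : T' ⊆ U) (h : rst G U ≤ H)
    (hc : Tch G T T') : Tch H T T' := by
  obtain ⟨x, hx, y, hy, hxy⟩ := hc
  exact ⟨x, hx, y, hy, h ⟨hxy, hT hx, hT' hy⟩⟩

/-- availability from pairwise disjoint sets attached to the vertices of `S` -/
private theorem avl_aux {V : Type} {G D : SimpleGraph V} {S W : Set V} (hd : Disjoint W S) (hD : D ≤ cl S) (g : V → Set V)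
    (h1 : ∀ s ∈ S, g s ⊆ W) (h2 : ∀ s ∈ S, Con G ({s} ∪ g s)) (h3 : ∀ s ∈ S, ∀ t ∈ S, s ≠ t → Disjoint (g s) (g t))
    (h4 : ∀ a b, D.Adj a b → Tch G ({a} ∪ g a) ({b} ∪ g b)) : Avl G W S D := by
  classical
  intro H X hX hH hpl
  have hsub : ∀ s ∈ S, {s} ∪ g s ⊆ W ∪ S := by
    intro s hs x hx
    rcases hx with hx | hx
    · rw [Set.mem_singleton_iff] at hx
      exact Or.inr (hx ▸ hs)
    · exact Or.inl (h1 s hs hx)
  -- the branch sets
  let f : V → Set V := fun x => {x} ∪ {z | x ∈ S ∧ z ∈ g x}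
  have fS : ∀ s ∈ S, f s = {s} ∪ g s := by
    intro s hs
    ext z
    simp only [f, Set.mem_union, Set.mem_singleton_iff, Set.mem_setOf_eq, hs, true_and]
  have fN : ∀ s, s ∉ S → f s = {s} := by
    intro s hs
    ext z
    simp only [f, Set.mem_union, Set.mem_singleton_iff, Set.mem_setOf_eq, hs, false_and, or_false]
  have fm : ∀ x, x ∈ f x := fun x => Or.inl rfl
  have hmem : ∀ a a', (rst H (X ∪ S) ⊔ D).Adj a a' → a ∈ X ∪ S := by
    intro a a' h
    rcases (SimpleGraph.sup_adj _ _ _ _).1 h with h | h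
    · exact h.2.1
    · exact Or.inr (hD h).2.1
  refine Pool.Agent.Helper86.NK.hPTR V V (rst H (X ∪ S) ⊔ D) H f ?_ ?_ ?_ hpl
  · intro a a' haa
    by_cases hs : a ∈ S
    · rw [fS a hs]
      exact con_of (hsub a hs) hH (h2 a hs)
    · rw [fN a hs]
      exact con_singleton H a
  · intro a a' b b' hab haa hbb
    have ha := hmem _ _ haa
    have hb := hmem _ _ hbb
    have hXg : ∀ s ∈ S, ∀ x ∈ X ∪ S, x ∉ g s := by
      intro s hs x hx hxg
      have hw := h1 s hs hxg
      rcases hx with hx | hx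
      · exact Set.disjoint_left.1 hX hx hw
      · exact Set.disjoint_left.1 hd hw hx
    rw [Set.disjoint_left]
    intro z hz hz'
    rcases hz with hz | hz
    · rcases hz' with hz' | hz'
      · rw [Set.mem_singleton_iff] at hz hz'
        exact hab (hz.symm.trans hz')
      · rw [Set.mem_singleton_iff] at hz
        exact hXg b hz'.1 a ha (hz ▸ hz'.2)
    · rcases hz' with hz' | hz'
      · rw [Set.mem_singleton_iff] at hz'
        exact hXg a hz.1 b hb (hz' ▸ hz.2)
      · exact Set.disjoint_left.1 (h3 a hz.1 b hz'.1 hab) hz.2 hz'.2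
  · intro a a' haa
    rcases (SimpleGraph.sup_adj _ _ _ _).1 haa with h | h
    · exact ⟨a, fm a, a', fm a', h.1⟩
    · have h5 := hD h
      rw [fS a h5.2.1, fS a' h5.2.2]
      exact tch_of (hsub a h5.2.1) (hsub a' h5.2.2) hH (h4 a a' h)

theorem hAVL (hCMP : StCMP) (hLNY : StLNY) : StAVL := by
  classical
  intro V _ G S B v hS hB hv
  have hdW : Disjoint (B \ {v}) S := hB.1.mono_left Set.diff_subset
  have hKW : ∀ K, Cmp G (insert v S) K → K ⊆ B → K ⊆ B \ {v} := by
    intro K hK hKB x hx
    refine ⟨hKB hx, fun h => ?_⟩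
    exact Set.disjoint_left.1 hK.1 hx (Or.inl h)
  have hcon : ∀ K, Cmp G (insert v S) K → ∀ s, Tch G {s} K → Con G ({s} ∪ K) := fun K hK s h =>
    con_union (con_singleton G s) hK.2.1 h
  have hKCA := Pool.Agent.Helper36.NK.hKCA Pool.Agent.Helper86.NK.hPTR
  refine ⟨?_, ?_, ?_, ?_, ?_⟩
  · -- (1)
    rintro ⟨K, hK, hKB, hT⟩ H X hX hH hpl
    have hKW' := hKW K hK hKB
    have hKU : K ⊆ (B \ {v}) ∪ S := fun x hx => Or.inl (hKW' hx)
    refine hLNY V H H X S K hS (fun a b h => h.1) (con_of hKU hH hK.2.1) ?_ ?_ hpl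
    · rw [Set.disjoint_union_right]
      exact ⟨(hX.mono_right hKW').symm, hdW.mono_left hKW'⟩
    · intro s hs
      exact tch_of (fun x hx => Or.inr (by rw [Set.mem_singleton_iff] at hx; exact hx ▸ hs)) hKU hH (hT s hs)
  · -- (2)
    intro hP
    obtain ⟨a, b, c, hab, hac, hbc, rfl⟩ := Set.ncard_eq_three.1 hS
    have ma : a ∈ ({a, b, c} : Set V) := by simp
    have mb : b ∈ ({a, b, c} : Set V) := by simp
    have mc : c ∈ ({a, b, c} : Set V) := by simp
    obtain ⟨K1, k1, k1B, t1⟩ := hP a ma b mb hab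
    obtain ⟨K2, k2, k2B, t2⟩ := hP b mb c mc hbc
    obtain ⟨K3, k3, k3B, t3⟩ := hP c mc a ma hac.symm
    have d2 := (hCMP V G (insert v ({a, b, c} : Set V))).2.1
    -- touching
    have t1a : Tch G {a} K1 := (t1 a ma).2 (Or.inl rfl)
    have t1b : Tch G {b} K1 := (t1 b mb).2 (Or.inr rfl)
    have t2b : Tch G {b} K2 := (t2 b mb).2 (Or.inl rfl)
    have t2c : Tch G {c} K2 := (t2 c mc).2 (Or.inr rfl)
    have t3c : Tch G {c} K3 := (t3 c mc).2 (Or.inl rfl)
    have t3a : Tch G {a} K3 := (t3 a ma).2 (Or.inr rfl)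
    have n1c : ¬ Tch G {c} K1 := fun h => by
      rcases (t1 c mc).1 h with h | h
      · exact hac h.symm
      · exact hbc h.symm
    have n2a : ¬ Tch G {a} K2 := fun h => by
      rcases (t2 a ma).1 h with h | h
      · exact hab h
      · exact hac h
    have e12 : Disjoint K1 K2 := d2 K1 K2 k1 k2 fun h => n1c (h ▸ t2c)
    have e13 : Disjoint K1 K3 := d2 K1 K3 k1 k3 fun h => n1c (h ▸ t3c)
    have e23 : Disjoint K2 K3 := d2 K2 K3 k2 k3 fun h => n2a (h ▸ t3a)
    let g : V → Set V := fun x => if x = a then K1 else if x = b then K2 else K3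
    have ga : g a = K1 := if_pos rfl
    have gb : g b = K2 := by simp only [g, if_neg hab.symm, if_pos]
    have gc : g c = K3 := by simp only [g, if_neg hac.symm, if_neg hbc.symm]
    refine avl_aux hdW le_rfl g ?_ ?_ ?_ ?_
    · intro s hs
      rcases hs with rfl | rfl | rfl
      · rw [ga]; exact hKW K1 k1 k1B
      · rw [gb]; exact hKW K2 k2 k2B
      · rw [gc]; exact hKW K3 k3 k3B
    · intro s hs
      rcases hs with rfl | rfl | rfl
      · rw [ga]; exact hcon K1 k1 _ t1a
      · rw [gb]; exact hcon K2 k2 _ t2b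
      · rw [gc]; exact hcon K3 k3 _ t3c
    · intro s hs t ht hst
      rcases hs with rfl | rfl | rfl <;> rcases ht with rfl | rfl | rfl
      · exact absurd rfl hst
      · rw [ga, gb]; exact e12
      · rw [ga, gc]; exact e13
      · rw [ga, gb]; exact e12.symm
      · exact absurd rfl hst
      · rw [gb, gc]; exact e23
      · rw [ga, gc]; exact e13.symm
      · rw [gb, gc]; exact e23.symm
      · exact absurd rfl hst
    · intro s t hst
      obtain ⟨hst, hs, ht⟩ := hst
      have hst : s ≠ t := hst.ne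
      rcases hs with rfl | rfl | rfl <;> rcases ht with rfl | rfl | rfl
      · exact absurd rfl hst
      · rw [ga, gb]
        exact tch_symm (tch_mono t1b Set.subset_union_left Set.subset_union_right)
      · rw [ga, gc]
        exact tch_mono t3a Set.subset_union_left Set.subset_union_right
      · rw [ga, gb]
        exact tch_mono t1b Set.subset_union_left Set.subset_union_right
      · exact absurd rfl hst
      · rw [gb, gc]
        exact tch_symm (tch_mono t2c Set.subset_union_left Set.subset_union_right)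
      · rw [ga, gc]
        exact tch_symm (tch_mono t3a Set.subset_union_left Set.subset_union_right)
      · rw [gb, gc]
        exact tch_mono t2c Set.subset_union_left Set.subset_union_right
      · exact absurd rfl hst
  · -- (3)
    intro c hc hP
    -- the two other elements
    obtain ⟨a, b, hSab⟩ : ∃ a b, S \ {c} = {a, b} ∧ a ≠ b := by
      have h2 : (S \ {c}).ncard = 2 := by
        rw [Set.ncard_diff_singleton_of_mem hc, hS]
      obtain ⟨a, b, hab, h⟩ := Set.ncard_eq_two.1 h2
      exact ⟨a, b, h, hab⟩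
    obtain ⟨hSab, hab⟩ := hSab
    have ma : a ∈ S \ {c} := by rw [hSab]; simp
    have mb : b ∈ S \ {c} := by rw [hSab]; simp
    obtain ⟨K1, k1, k1B, t1⟩ := hP.2 a ma.1 ma.2
    obtain ⟨K2, k2, k2B, t2⟩ := hP.2 b mb.1 mb.2
    have c1 := (hP.1 K1 k1 k1B).1
    have c2 := (hP.1 K2 k2 k2B).1
    have hD : str c S ≤ cl S := by
      intro x y h
      rcases h.2 with ⟨h1, h2⟩ | ⟨h1, h2⟩
      · exact ⟨h.1, h1 ▸ hc, h2⟩
      · exact ⟨h.1, h2, h1 ▸ hc⟩
    let g : V → Set V := fun x => if x = c then K1 ∪ K2 else ∅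
    have gc : g c = K1 ∪ K2 := if_pos rfl
    have gn : ∀ x, x ≠ c → g x = ∅ := fun x hx => if_neg hx
    refine avl_aux hdW hD g ?_ ?_ ?_ ?_
    · intro s hs
      by_cases h : s = c
      · rw [h, gc]
        exact Set.union_subset (hKW K1 k1 k1B) (hKW K2 k2 k2B)
      · rw [gn s h]
        exact Set.empty_subset _
    · intro s hs
      by_cases h : s = c
      · rw [h, gc, ← Set.union_assoc]
        exact con_union (hcon K1 k1 c c1) k2.2.1 (tch_mono c2 Set.subset_union_left subset_rfl)
      · rw [gn s h, Set.union_empty]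
        exact con_singleton G s
    · intro s hs t ht hst
      by_cases h : s = c
      · rw [gn t (fun h' => hst (h.trans h'.symm))]
        exact Set.disjoint_empty _
      · rw [gn s h]
        exact Set.empty_disjoint _
    · have key : ∀ t ∈ S, c ≠ t → Tch G ({c} ∪ g c) ({t} ∪ g t) := by
        intro t ht hct
        have htc : t ∈ S \ {c} := ⟨ht, fun h => hct h.symm⟩
        rw [hSab] at htc
        rw [gc]
        rcases htc with rfl | htc
        · exact tch_symm (tch_mono t1 Set.subset_union_left (Set.subset_union_left.trans Set.subset_union_right))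
        · rw [Set.mem_singleton_iff] at htc
          subst htc
          exact tch_symm (tch_mono t2 Set.subset_union_left (Set.subset_union_right.trans Set.subset_union_right))
      intro s t hst
      obtain ⟨hne, h | h⟩ := hst
      · obtain ⟨rfl, ht⟩ := h
        exact key t ht hne
      · obtain ⟨rfl, hs⟩ := h
        exact tch_symm (key s hs hne.symm)
  · -- (4)
    intro W D D' hDD h H X hX hH hpl
    exact (hKCA V G S).2.2.2.2.2.1 _ _ (sup_le_sup_left hDD _) (h H X hX hH hpl)
  · -- (5)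
    intro c hc x y h
    rcases h.2 with ⟨h1, h2⟩ | ⟨h1, h2⟩
    · exact ⟨h.1, h1 ▸ hc, h2⟩
    · exact ⟨h.1, h2, h1 ▸ hc⟩

end Pool.Agent.Helper72.TS
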