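import Pool.Agent.Helper12.TS.St

/-!
# Project TS (MP_d63854_co), module LNY: Delta-Y
-/

set_option autoImplicit false

namespace Pool.Agent.Helper72.TS

open Pool.Agent.Helper12.TS
open Pool.Agent.Helper51.AJ (IsMinor Planar Apex ExMinor Con Tch)
open Pool.Agent.Helper12.NK (rst Kc add)

theorem hLNY (hPTN : StPTN) (hYMD : StYMD) : StLNY := by
  intro V _ G K X S P hS hK hP hD hT hpl
  by_contra hn
  obtain ⟨-, -, -, -, h5, -⟩ := hPTN
  have key : ∀ φw : Set V, Con (rst G (X ∪ S) ⊔ cl S) φw → ¬ φw ⊆ (∅ : Set V) := by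
    intro φw hc h
    have he : φw = ∅ := Set.subset_empty_iff.1 h
    subst he
    obtain ⟨⟨x, hx⟩⟩ := hc.nonempty
    exact hx
  refine hYMD V (rst G (X ∪ S) ⊔ cl S) K ∅ S P hS (Set.empty_disjoint S) (fun x hx => absurd hx (Set.notMem_empty x))
    ?_ hP (hD.mono_right Set.subset_union_right) ?_ hT ?_ hpl
  · intro x y hxy _ _ hns
    rcases (SimpleGraph.sup_adj _ _ _ _).1 hxy with h | h
    · exact hK h
    · exfalso
      exact hns ⟨h.2.1, h.2.2⟩
  · intro x hx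
    right
    intro y hxy
    rcases (SimpleGraph.sup_adj _ _ _ _).1 hxy with h | h
    · exact Set.disjoint_left.1 hD hx h.2.1
    · exact Set.disjoint_left.1 hD hx (Or.inr h.2.1)
  · rcases h5 V (rst G (X ∪ S) ⊔ cl S) hn with ⟨φ, hφ⟩ | ⟨φ, hφ⟩
    · exact Or.inl ⟨φ, hφ, fun w => key _ (hφ.1 w)⟩
    · exact Or.inr ⟨φ, hφ, fun w => key _ (hφ.1 w)⟩

end Pool.Agent.Helper72.TS
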